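import Pool.Agent.D0H61.CC.Stm

/-! # CC: MS, DEN, WIN -/

set_option autoImplicit false

namespace Pool.Agent.D0H87.CC

open Filter Topology MeasureTheory Finset
open Pool.Agent.D0H61.CC

/-! ### MS -/

theorem norm_ex (x : ℝ) : ‖ex x‖ = 1 := by
  unfold ex
  exact Complex.norm_exp_ofReal_mul_I x

theorem ex_add (x y : ℝ) : ex (x + y) = ex x * ex y := by
  unfold ex
  rw [← Complex.exp_add]
  congr 1
  push_cast
  ring

theorem conj_ex (x : ℝ) : (starRingEnd ℂ) (ex x) = ex (-x) := by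
  unfold ex
  rw [← Complex.exp_conj, map_mul, Complex.conj_ofReal, Complex.conj_I]
  congr 1
  push_cast
  ring

theorem cont_ex : Continuous ex := by
  unfold ex
  fun_prop

theorem tri_le (x : ℝ) : tri x ≤ 1 := by
  unfold tri
  exact max_le zero_le_one (by linarith [abs_nonneg x])

theorem tri_nonneg (x : ℝ) : 0 ≤ tri x := le_max_left _ _

theorem tri_zero {x : ℝ} (h : 1 ≤ |x|) : tri x = 0 := by
  unfold tri
  exact max_eq_left (by linarith)

theorem int_ex {K : ℝ → ℝ} (hi : Integrable K) (b : ℝ) :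
    Integrable fun ξ : ℝ => (K ξ : ℂ) * ex (b * ξ) := by
  have h1 : Integrable fun ξ : ℝ => (K ξ : ℂ) := hi.ofReal
  refine h1.mul_bdd (c := 1) ?_ ?_
  · exact (cont_ex.comp (continuous_const.mul continuous_id)).aestronglyMeasurable
  · exact Filter.Eventually.of_forall fun ξ => (norm_ex _).le

theorem log_sub_ge {n m : ℕ} {Y : ℝ} (hn : 0 < n) (hm : 0 < m) (hnY : (n : ℝ) ≤ Y)
    (hmY : (m : ℝ) ≤ Y) : |(n : ℝ) - m| / Y ≤ |Real.log n - Real.log m| := by
  have hn' : (0 : ℝ) < n := by exact_mod_cast hn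
  have hm' : (0 : ℝ) < m := by exact_mod_cast hm
  have hY : 0 < Y := lt_of_lt_of_le hn' hnY
  have key : ∀ {a b : ℝ}, 0 < a → 0 < b → b ≤ Y → a ≤ b → (b - a) / Y ≤ Real.log b - Real.log a := by
    intro a b ha hb hbY hab
    have h1 : Real.log (a / b) ≤ a / b - 1 := Real.log_le_sub_one_of_pos (by positivity)
    rw [Real.log_div ha.ne' hb.ne'] at h1
    have h2 : (b - a) / Y ≤ (b - a) / b := by
      apply div_le_div_of_nonneg_left (by linarith) hb hbY
    have h3 : (b - a) / b = 1 - a / b := by field_simp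
    linarith
  rcases le_total (n : ℝ) m with h | h
  · rw [abs_sub_comm, abs_of_nonneg (by linarith : (0 : ℝ) ≤ m - n), abs_sub_comm]
    exact (key hn' hm' hmY h).trans (le_abs_self _)
  · rw [abs_of_nonneg (by linarith : (0 : ℝ) ≤ n - m)]
    exact (key hm' hn' hnY h).trans (le_abs_self _)

theorem card_near (G : Finset ℕ) (n : ℕ) {T : ℝ} (hT : 0 ≤ T) :
    ((G.filter fun m : ℕ => |(n : ℝ) - m| < T).card : ℝ) ≤ 2 * T + 1 := by
  have h1 : (G.filter fun m : ℕ => |(n : ℝ) - m| < T).card ≤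
      (Finset.Icc ((n : ℤ) - ⌊T⌋) (n + ⌊T⌋)).card := by
    refine Finset.card_le_card_of_injOn (fun m : ℕ => (m : ℤ)) ?_ ?_
    · intro m hm
      have hm' := (Finset.mem_filter.1 hm).2
      have h2 : |((n : ℤ) - m)| ≤ ⌊T⌋ := by
        rw [Int.le_floor]
        push_cast
        exact hm'.le
      rw [abs_le] at h2
      rw [Finset.mem_coe, Finset.mem_Icc]
      constructor <;> linarith [h2.1, h2.2]
    · intro a _ b _ hab
      have hab' : (a : ℤ) = b := hab
      exact_mod_cast hab'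
  have h2 : (Finset.Icc ((n : ℤ) - ⌊T⌋) (n + ⌊T⌋)).card = (2 * ⌊T⌋ + 1).toNat := by
    rw [Int.card_Icc]
    congr 1
    ring
  rw [h2] at h1
  have h3 : (0 : ℤ) ≤ ⌊T⌋ := Int.floor_nonneg.2 hT
  have h4 : (((2 * ⌊T⌋ + 1).toNat : ℕ) : ℝ) = 2 * (⌊T⌋ : ℝ) + 1 := by
    have : (((2 * ⌊T⌋ + 1).toNat : ℕ) : ℤ) = 2 * ⌊T⌋ + 1 := Int.toNat_of_nonneg (by omega)
    exact_mod_cast this
  have h5 : ((G.filter fun m : ℕ => |(n : ℝ) - m| < T).card : ℝ) ≤
      (((2 * ⌊T⌋ + 1).toNat : ℕ) : ℝ) := by exact_mod_cast h1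
  rw [h4] at h5
  linarith [Int.floor_le T]

theorem t_MS : S_MS := by
  intro K hKc hKi hK0 hKt G c L Y μ hG hμ
  set S : ℝ → ℂ := fun ξ => ∑ n ∈ G, (c n : ℂ) * ex (2 * Real.pi * μ * ξ * Real.log n) with hS
  -- expansion of the square
  have h1 : ∀ ξ : ℝ, ((K ξ * ‖S ξ‖ ^ 2 : ℝ) : ℂ) = ∑ n ∈ G, ∑ m ∈ G,
      ((c n : ℂ) * (c m : ℂ)) * ((K ξ : ℂ) *
        ex (2 * Real.pi * (μ * (Real.log n - Real.log m)) * ξ)) := by
    intro ξ
    have h2 : ((‖S ξ‖ ^ 2 : ℝ) : ℂ) = S ξ * (starRingEnd ℂ) (S ξ) := by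
      rw [Complex.mul_conj, Complex.normSq_eq_norm_sq]
    rw [Complex.ofReal_mul, h2]
    simp only [hS]
    rw [map_sum, Finset.sum_mul_sum, Finset.mul_sum]
    refine Finset.sum_congr rfl fun n _ => ?_
    rw [Finset.mul_sum]
    refine Finset.sum_congr rfl fun m _ => ?_
    rw [map_mul, Complex.conj_ofReal, conj_ex]
    have h3 : ex (2 * Real.pi * (μ * (Real.log n - Real.log m)) * ξ) =
        ex (2 * Real.pi * μ * ξ * Real.log n) * ex (-(2 * Real.pi * μ * ξ * Real.log m)) := by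
      rw [← ex_add]
      congr 1
      ring
    rw [h3]
    ring
  have h2 : ((∫ ξ, K ξ * ‖S ξ‖ ^ 2 : ℝ) : ℂ) = ∑ n ∈ G, ∑ m ∈ G,
      ((c n : ℂ) * (c m : ℂ)) * ((tri (μ * (Real.log n - Real.log m)) : ℝ) : ℂ) := by
    rw [← integral_complex_ofReal]
    simp only [h1]
    rw [integral_finsetSum]
    · refine Finset.sum_congr rfl fun n _ => ?_
      rw [integral_finsetSum]
      · refine Finset.sum_congr rfl fun m _ => ?_
        rw [integral_const_mul, hKt]
      · intro m _
        exact (int_ex hKi _).const_mul _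
    · intro n _
      exact integrable_finsetSum _ fun m _ => (int_ex hKi _).const_mul _
  have h3 : (∫ ξ, K ξ * ‖S ξ‖ ^ 2 : ℝ) = ∑ n ∈ G, ∑ m ∈ G,
      c n * c m * tri (μ * (Real.log n - Real.log m)) := by
    exact_mod_cast h2
  change (∫ ξ, K ξ * ‖S ξ‖ ^ 2) ≤ _
  rw [h3]
  rcases G.eq_empty_or_nonempty with hG0 | ⟨n₀, hn₀⟩
  · subst hG0
    simp
  have hL : 0 ≤ L := (abs_nonneg _).trans (hG n₀ hn₀).2.2
  have hY : 0 < Y := lt_of_lt_of_le (by exact_mod_cast (hG n₀ hn₀).1) (hG n₀ hn₀).2.1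
  have hμ' : 0 < |μ| := abs_pos.2 hμ
  have h4 : ∀ n ∈ G, ∑ m ∈ G, c n * c m * tri (μ * (Real.log n - Real.log m)) ≤
      L ^ 2 * (2 * Y / |μ| + 1) := by
    intro n hn
    have h5 : ∀ m ∈ G, c n * c m * tri (μ * (Real.log n - Real.log m)) ≤
        L ^ 2 * (if |(n : ℝ) - m| < Y / |μ| then 1 else 0) := by
      intro m hm
      have h6 : c n * c m ≤ L ^ 2 := by
        have := mul_le_mul (hG n hn).2.2 (hG m hm).2.2 (abs_nonneg _) hL
        rw [← abs_mul] at this
        calc c n * c m ≤ |c n * c m| := le_abs_self _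
          _ ≤ L * L := this
          _ = L ^ 2 := by ring
      split_ifs with h7
      · calc c n * c m * tri (μ * (Real.log n - Real.log m))
            ≤ L ^ 2 * tri (μ * (Real.log n - Real.log m)) :=
              mul_le_mul_of_nonneg_right h6 (tri_nonneg _)
          _ ≤ L ^ 2 * 1 := mul_le_mul_of_nonneg_left (tri_le _) (sq_nonneg _)
      · rw [tri_zero, mul_zero, mul_zero]
        have h8 := log_sub_ge (hG n hn).1 (hG m hm).1 (hG n hn).2.1 (hG m hm).2.1
        rw [not_lt, div_le_iff₀ hμ'] at h7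
        rw [abs_mul]
        rw [div_le_iff₀ hY] at h8
        have h9 : Y ≤ |Real.log n - Real.log m| * Y * |μ| :=
          h7.trans (mul_le_mul_of_nonneg_right h8 hμ'.le)
        have h10 : 1 * Y ≤ (|μ| * |Real.log n - Real.log m|) * Y := by
          rw [one_mul]
          calc Y ≤ |Real.log n - Real.log m| * Y * |μ| := h9
            _ = _ := by ring
        exact le_of_mul_le_mul_right h10 hY
    calc ∑ m ∈ G, c n * c m * tri (μ * (Real.log n - Real.log m))
        ≤ ∑ m ∈ G, L ^ 2 * (if |(n : ℝ) - m| < Y / |μ| then 1 else 0) := Finset.sum_le_sum h5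
      _ = L ^ 2 * ((G.filter fun m : ℕ => |(n : ℝ) - m| < Y / |μ|).card : ℝ) := by
          rw [← Finset.mul_sum, Finset.sum_boole]
      _ ≤ L ^ 2 * (2 * (Y / |μ|) + 1) :=
          mul_le_mul_of_nonneg_left (card_near G n (by positivity)) (sq_nonneg _)
      _ = _ := by ring
  calc ∑ n ∈ G, ∑ m ∈ G, c n * c m * tri (μ * (Real.log n - Real.log m))
      ≤ ∑ n ∈ G, L ^ 2 * (2 * Y / |μ| + 1) := Finset.sum_le_sum h4
    _ = L ^ 2 * G.card * (2 * Y / |μ| + 1) := by
        rw [Finset.sum_const, nsmul_eq_mul]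
        ring

/-! ### DEN -/

theorem t_DEN : S_DEN := by
  intro E hE h
  have h1 := IsUnifLocDoublingMeasure.ae_tendsto_measure_inter_div (volume : Measure ℝ) Eᶜ 1
  rw [ae_restrict_iff' hE.compl] at h1
  filter_upwards [h1] with x hx hx0
  by_contra hxE
  -- the parameters
  obtain ⟨R, hR1, hR2, hR3⟩ : ∃ R : ℝ, 1 ≤ R ∧ 1 / R ≤ x ∧ x ≤ R := by
    refine ⟨max 1 (max x (1 / x)), le_max_left _ _, ?_, (le_max_left _ _).trans (le_max_right _ _)⟩
    have h2 : 1 / x ≤ max 1 (max x (1 / x)) := (le_max_right _ _).trans (le_max_right _ _)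
    have h3 : 0 < 1 / x := by positivity
    rw [div_le_iff₀ (lt_of_lt_of_le h3 h2)]
    rw [div_le_iff₀ hx0] at h2
    linarith
  obtain ⟨c, hc, η₀, hη₀, hcη⟩ := h R hR1
  have h2 := hx hxE (l := 𝓝[>] (0 : ℝ)) (fun η : ℝ => x + 3 * x * η / 2) (fun η : ℝ => 3 * x * η / 2)
    (by
      refine tendsto_nhdsWithin_iff.2 ⟨?_, ?_⟩
      · have : Tendsto (fun η : ℝ => 3 * x * η / 2) (𝓝 0) (𝓝 (3 * x * 0 / 2)) :=
          (by fun_prop : Continuous fun η : ℝ => 3 * x * η / 2).tendsto 0
        rw [mul_zero, zero_div] at this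
        exact this.mono_left nhdsWithin_le_nhds
      · filter_upwards [self_mem_nhdsWithin] with η hη
        have hη' : 0 < η := hη
        change 0 < 3 * x * η / 2
        positivity)
    (by
      filter_upwards [self_mem_nhdsWithin] with η hη
      have hη' : 0 < η := hη
      rw [Metric.mem_closedBall, Real.dist_eq]
      have h3 : x - (x + 3 * x * η / 2) = -(3 * x * η / 2) := by ring
      rw [h3, abs_neg, abs_of_nonneg (by positivity), one_mul])
  -- the upper bound
  have h3 : ∀ᶠ η : ℝ in 𝓝[>] 0, volume (Eᶜ ∩ Metric.closedBall (x + 3 * x * η / 2) (3 * x * η / 2)) /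
      volume (Metric.closedBall (x + 3 * x * η / 2) (3 * x * η / 2)) ≤
        ENNReal.ofReal (1 - c / (3 * x)) := by
    have h4 : ∀ᶠ η : ℝ in 𝓝[>] 0, η < η₀ :=
      nhdsWithin_le_nhds (Iio_mem_nhds hη₀)
    filter_upwards [self_mem_nhdsWithin, h4] with η hη hη2
    have hη' : 0 < η := hη
    have hI : Metric.closedBall (x + 3 * x * η / 2) (3 * x * η / 2) =
        Set.Icc x (x * (1 + 3 * η)) := by
      rw [Real.closedBall_eq_Icc]
      congr 1 <;> ring
    rw [hI]
    have hv : volume (Set.Icc x (x * (1 + 3 * η))) = ENNReal.ofReal (3 * x * η) := by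
      rw [Real.volume_Icc]
      congr 1
      ring
    have hpos : 0 < 3 * x * η := by positivity
    have h5 : volume (E ∩ Set.Icc x (x * (1 + 3 * η))) +
        volume (Eᶜ ∩ Set.Icc x (x * (1 + 3 * η))) = ENNReal.ofReal (3 * x * η) := by
      rw [← hv, Set.inter_comm E, Set.inter_comm Eᶜ, ← Set.sdiff_eq]
      exact measure_inter_add_sdiff _ hE
    have h6 := hcη x η hR2 hR3 hη' hη2.le
    rw [hv]
    rw [ENNReal.div_le_iff (by
      rw [Ne, ENNReal.ofReal_eq_zero, not_le]
      exact hpos) ENNReal.ofReal_ne_top]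
    have h7 : volume (Eᶜ ∩ Set.Icc x (x * (1 + 3 * η))) ≤ ENNReal.ofReal (3 * x * η - c * η) := by
      rw [ENNReal.ofReal_sub _ (by positivity)]
      rw [← h5]
      refine ENNReal.le_sub_of_add_le_left ENNReal.ofReal_ne_top ?_
      gcongr
    refine h7.trans ?_
    by_cases h8 : 0 ≤ 1 - c / (3 * x)
    · rw [← ENNReal.ofReal_mul h8]
      apply ENNReal.ofReal_le_ofReal
      have : (1 - c / (3 * x)) * (3 * x * η) = 3 * x * η - c * η := by
        field_simp
      rw [this]
    · have h9 : 3 * x * η - c * η ≤ 0 := by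
        have : (1 - c / (3 * x)) * (3 * x * η) = 3 * x * η - c * η := by
          field_simp
        rw [← this]
        exact mul_nonpos_of_nonpos_of_nonneg (not_le.1 h8).le hpos.le
      rw [ENNReal.ofReal_eq_zero.2 h9]
      exact zero_le
  have h4 := le_of_tendsto h2 h3
  have h5 : ENNReal.ofReal (1 - c / (3 * x)) < 1 := by
    rw [← ENNReal.ofReal_one]
    rw [ENNReal.ofReal_lt_ofReal_iff one_pos]
    have : 0 < c / (3 * x) := by positivity
    linarith
  exact absurd h4 (not_le.2 h5)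

/-! ### WIN -/

open Classical in
/-- the elements in the window -/
noncomputable def win (A : Set ℕ) (η : ℝ) (N : ℕ) : Finset ℕ :=
  (Finset.Icc 1 (2 * N)).filter fun n : ℕ => n ∈ A ∧ N < n ∧ (n : ℝ) ≤ (1 + η) * N

theorem upTo_le (A : Set ℕ) {η : ℝ} (hη1 : η ≤ 1) {M Y : ℕ} (hMY : (Y : ℝ) ≤ (1 + η) * M) :
    (upTo A Y).card ≤ (upTo A M).card + (win A η M).card := by
  classical
  refine (Finset.card_le_card ?_).trans (Finset.card_union_le _ _)
  intro n hn
  obtain ⟨hn1, hnA⟩ := Finset.mem_filter.1 hn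
  rw [Finset.mem_Icc] at hn1
  rw [Finset.mem_union]
  by_cases h : n ≤ M
  · left
    exact Finset.mem_filter.2 ⟨Finset.mem_Icc.2 ⟨hn1.1, h⟩, hnA⟩
  · right
    have h1 : (n : ℝ) ≤ (1 + η) * M := le_trans (by exact_mod_cast hn1.2) hMY
    have hM0 : (0 : ℝ) ≤ M := Nat.cast_nonneg _
    refine Finset.mem_filter.2 ⟨Finset.mem_Icc.2 ⟨hn1.1, ?_⟩, hnA, not_le.1 h, h1⟩
    have h2 : (n : ℝ) ≤ ((2 * M : ℕ) : ℝ) := by
      push_cast
      nlinarith
    exact_mod_cast h2

theorem upTo_card_le (A : Set ℕ) (Y : ℕ) : (upTo A Y).card ≤ Y := by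
  classical
  refine (Finset.card_filter_le _ _).trans ?_
  rw [Nat.card_Icc]
  omega

theorem win_card_le (A : Set ℕ) (η : ℝ) (M : ℕ) : (win A η M).card ≤ 2 * M := by
  classical
  refine (Finset.card_filter_le _ _).trans ?_
  rw [Nat.card_Icc]
  omega

theorem iter (A : Set ℕ) {η : ℝ} (hη : 0 < η) (hη1 : η ≤ 1) {s B : ℝ}
    (hs : ∀ Y : ℝ, s < Y → Y / (1 + η) + 1 ≤ Y / (1 + η / 2)) (hs1 : 1 ≤ s) (hB : 0 ≤ B)
    (hW : ∀ N : ℕ, s < N → ((win A η N).card : ℝ) ≤ B * N) (Y : ℕ) :
    ((upTo A Y).card : ℝ) ≤ 3 * s + 2 / η * B * Y := by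
  induction Y using Nat.strong_induction_on with
  | _ Y ih =>
    have hs0 : 0 ≤ s := by linarith
    have hY0 : (0 : ℝ) ≤ Y := Nat.cast_nonneg _
    have hnn : 0 ≤ 2 / η * B * Y := by positivity
    by_cases h : (Y : ℝ) ≤ s
    · have : ((upTo A Y).card : ℝ) ≤ Y := by exact_mod_cast upTo_card_le A Y
      linarith
    · rw [not_le] at h
      set M : ℕ := ⌈(Y : ℝ) / (1 + η)⌉₊ with hM
      have h1 : (Y : ℝ) / (1 + η) ≤ M := Nat.le_ceil _
      have h2 : (M : ℝ) < Y / (1 + η) + 1 := Nat.ceil_lt_add_one (by positivity)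
      have h3 := hs Y h
      have hY : (0 : ℝ) < Y := by linarith
      have h4 : (Y : ℝ) / (1 + η / 2) < Y := by
        rw [div_lt_iff₀ (by positivity)]
        nlinarith
      have h5 : M < Y := by
        have : (M : ℝ) < Y := by linarith
        exact_mod_cast this
      have h6 : (Y : ℝ) ≤ (1 + η) * M := by
        rw [div_le_iff₀ (by positivity)] at h1
        linarith
      have h7 := upTo_le A hη1 h6
      have h7' : ((upTo A Y).card : ℝ) ≤ (upTo A M).card + (win A η M).card := by exact_mod_cast h7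
      by_cases h8 : (M : ℝ) ≤ s
      · have h9 : ((upTo A M).card : ℝ) ≤ M := by exact_mod_cast upTo_card_le A M
        have h10 : ((win A η M).card : ℝ) ≤ 2 * M := by exact_mod_cast win_card_le A η M
        linarith
      · rw [not_le] at h8
        have h9 := hW M h8
        have h10 := ih M h5
        have h11 : (M : ℝ) * (1 + η / 2) ≤ Y := by
          rw [← le_div_iff₀ (by positivity)]
          linarith
        have h12 : 2 / η * B * M + B * M = 2 / η * B * (M * (1 + η / 2)) := by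
          field_simp
        have h13 : 2 / η * B * (M * (1 + η / 2)) ≤ 2 / η * B * Y :=
          mul_le_mul_of_nonneg_left h11 (by positivity)
        linarith

theorem t_WIN : S_WIN := by
  classical
  intro C A hA η hη hη1
  change ∃ᶠ N : ℕ in atTop, (N : ℝ) ≤ ((win A η N).card : ℝ) * Real.log N ^ (C + 1)
  by_contra hcon
  rw [Filter.not_frequently] at hcon
  simp only [not_le] at hcon
  obtain ⟨N₁, hN₁⟩ := Filter.eventually_atTop.1 hcon
  -- the asymptotic conditions
  have e1 : ∀ᶠ X : ℕ in atTop, (N₁ : ℝ) + 4 + 4 * (1 + η) * (1 + η / 2) / η ≤ √(X : ℝ) := by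
    have h1 : Tendsto (fun X : ℕ => √(X : ℝ)) atTop atTop :=
      Real.tendsto_sqrt_atTop.comp tendsto_natCast_atTop_atTop
    exact h1.eventually_ge_atTop _
  have e2 : ∀ᶠ X : ℕ in atTop, 6 * Real.log X ^ C < √(X : ℝ) := by
    have h1 := (isLittleO_log_rpow_rpow_atTop (C : ℝ) (by norm_num : (0 : ℝ) < 1 / 2)).bound
      (by norm_num : (0 : ℝ) < 1 / 7)
    have h2 := tendsto_natCast_atTop_atTop (R := ℝ) |>.eventually h1
    filter_upwards [h2, Filter.eventually_ge_atTop 1] with X hX hX1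
    have hX1' : (1 : ℝ) ≤ X := by exact_mod_cast hX1
    have hs0 : 0 < √(X : ℝ) := Real.sqrt_pos.2 (by linarith)
    rw [Real.rpow_natCast, Real.norm_of_nonneg (pow_nonneg (Real.log_nonneg hX1') _),
      Real.norm_of_nonneg (by positivity), ← Real.sqrt_eq_rpow] at hX
    linarith
  have e3 : ∀ᶠ X : ℕ in atTop, 2 * (2 / η * 2 ^ (C + 1)) < Real.log X := by
    have h1 : Tendsto (fun X : ℕ => Real.log (X : ℝ)) atTop atTop :=
      Real.tendsto_log_atTop.comp tendsto_natCast_atTop_atTop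
    exact h1.eventually_gt_atTop _
  obtain ⟨X, hX, h1, h2, h3⟩ := (hA.and_eventually (e1.and (e2.and e3))).exists
  set s : ℝ := √(X : ℝ) with hs
  have hη4 : 0 < 4 * (1 + η) * (1 + η / 2) / η := by positivity
  have hs1 : 1 ≤ s := by
    have : (0 : ℝ) ≤ N₁ := Nat.cast_nonneg _
    linarith
  have hss : s * s = X := Real.mul_self_sqrt (Nat.cast_nonneg _)
  have hXpos : (0 : ℝ) < X := by nlinarith
  have hlogs : Real.log s = Real.log X / 2 := by
    rw [hs, Real.log_sqrt (Nat.cast_nonneg _)]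
  have hlogX : 0 < Real.log X := by
    have : 0 < 2 * (2 / η * 2 ^ (C + 1)) := by positivity
    linarith
  set lam : ℝ := (Real.log X / 2) ^ (C + 1) with hlam
  have hlam0 : 0 < lam := by positivity
  have h4 := iter A hη hη1 (s := s) (B := 1 / lam) (fun Y hY => ?_) hs1 (by positivity)
    (fun N hN => ?_) X
  · -- the contradiction
    have h5 : (X : ℝ) ≤ (3 * s + 2 / η * (1 / lam) * X) * Real.log X ^ C :=
      hX.trans (mul_le_mul_of_nonneg_right h4 (by positivity))
    have h6 : 3 * s * Real.log X ^ C < X / 2 := by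
      have : 6 * Real.log X ^ C * s < s * s := mul_lt_mul_of_pos_right h2 (by linarith)
      rw [hss] at this
      linarith
    have h7 : 2 / η * (1 / lam) * X * Real.log X ^ C ≤ X / 2 := by
      have h8 : lam = Real.log X ^ C * (Real.log X / 2 ^ (C + 1)) := by
        rw [hlam, div_pow, pow_succ (Real.log X)]
        ring
      rw [h8]
      have h9 : 2 / η * (1 / (Real.log X ^ C * (Real.log X / 2 ^ (C + 1)))) * X * Real.log X ^ C =
          (2 / η * 2 ^ (C + 1)) / Real.log X * X := by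
        field_simp
      rw [h9]
      have h10 : (2 / η * 2 ^ (C + 1)) / Real.log X ≤ 1 / 2 := by
        rw [div_le_iff₀ hlogX]
        linarith
      calc (2 / η * 2 ^ (C + 1)) / Real.log X * X ≤ 1 / 2 * X :=
            mul_le_mul_of_nonneg_right h10 hXpos.le
        _ = X / 2 := by ring
    nlinarith
  · -- the condition on `Y`
    have hY' : 4 * (1 + η) * (1 + η / 2) / η ≤ Y := by
      have : (0 : ℝ) ≤ N₁ := Nat.cast_nonneg _
      linarith
    rw [div_add_one (by positivity), div_le_div_iff₀ (by positivity) (by positivity)]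
    rw [div_le_iff₀ hη] at hY'
    nlinarith
  · -- the windows
    have hN0 : (0 : ℝ) < N := by linarith
    have hN1 : N₁ ≤ N := by
      have : (N₁ : ℝ) ≤ N := by linarith
      exact_mod_cast this
    have h5 := hN₁ N hN1
    have h6 : Real.log X / 2 ≤ Real.log N := by
      rw [← hlogs]
      exact Real.log_le_log (by linarith) hN.le
    have h7 : lam ≤ Real.log N ^ (C + 1) := pow_le_pow_left₀ (by positivity) h6 _
    have h8 : ((win A η N).card : ℝ) * lam ≤ N :=
      (mul_le_mul_of_nonneg_left h7 (Nat.cast_nonneg _)).trans h5.le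
    rw [one_div, inv_mul_eq_div, le_div_iff₀ hlam0]
    exact h8

end Pool.Agent.D0H87.CC
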