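import Pool.Agent.D0H61.CC.Stm

/-! # CC: TRI -/

set_option autoImplicit false

namespace Pool.Agent.D0H87.CC.Tri

open Filter Topology MeasureTheory Finset FourierTransform
open Pool.Agent.D0H61.CC

/-- the Fejér kernel -/
noncomputable def K (ξ : ℝ) : ℝ := Real.sinc (Real.pi * ξ) ^ 2

theorem cont_K : Continuous K :=
  (Real.continuous_sinc.comp (continuous_const.mul continuous_id)).pow 2

theorem K_nonneg (ξ : ℝ) : 0 ≤ K ξ := sq_nonneg _

theorem K_le_one (ξ : ℝ) : K ξ ≤ 1 := by
  unfold K
  rw [← sq_abs]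
  exact pow_le_one₀ (abs_nonneg _) (Real.abs_sinc_le_one _)

theorem sq_K_le (ξ : ℝ) : ξ ^ 2 * K ξ ≤ 1 := by
  rcases eq_or_ne ξ 0 with rfl | h
  · norm_num
  · unfold K
    have hp := Real.pi_pos
    rw [Real.sinc_of_ne_zero (mul_ne_zero hp.ne' h), div_pow, mul_pow]
    have h1 : ξ ^ 2 * (Real.sin (Real.pi * ξ) ^ 2 / (Real.pi ^ 2 * ξ ^ 2)) =
        Real.sin (Real.pi * ξ) ^ 2 / Real.pi ^ 2 := by
      field_simp
    rw [h1, div_le_one (by positivity)]
    have h2 := Real.sin_sq_le_one (Real.pi * ξ)
    have h3 : 1 < Real.pi ^ 2 := by nlinarith [Real.pi_gt_three]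
    linarith

theorem int_K : Integrable K := by
  refine Integrable.mono' (g := fun ξ => 2 * (1 + ξ ^ 2)⁻¹) (integrable_inv_one_add_sq.const_mul 2)
    cont_K.aestronglyMeasurable (Filter.Eventually.of_forall fun ξ => ?_)
  rw [Real.norm_of_nonneg (K_nonneg ξ), ← div_eq_mul_inv, le_div_iff₀ (by positivity)]
  have := sq_K_le ξ
  have := K_le_one ξ
  nlinarith

theorem cont_tri : Continuous tri := by
  unfold tri
  fun_prop

theorem tri_zero {x : ℝ} (h : 1 ≤ |x|) : tri x = 0 := by
  unfold tri
  exact max_eq_left (by linarith)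

/-- the integral against an exponential -/
theorem int_tri {c : ℂ} (hc : c ≠ 0) : ∫ x : ℝ, Complex.exp (c * x) * ((tri x : ℝ) : ℂ) =
    (Complex.exp c + Complex.exp (-c) - 2) / c ^ 2 := by
  have h0 : ∫ x : ℝ, Complex.exp (c * x) * ((tri x : ℝ) : ℂ) =
      ∫ x in (-1 : ℝ)..1, Complex.exp (c * x) * ((tri x : ℝ) : ℂ) := by
    rw [intervalIntegral.integral_of_le (by norm_num)]
    symm
    apply setIntegral_eq_integral_of_forall_compl_eq_zero
    intro x hx
    have h1 : 1 ≤ |x| := by
      rw [Set.mem_Ioc, not_and_or, not_lt, not_le] at hx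
      rcases hx with hx | hx
      · rw [abs_of_nonpos (by linarith)]
        linarith
      · exact hx.le.trans (le_abs_self x)
    rw [tri_zero h1, Complex.ofReal_zero, mul_zero]
  have hcont : Continuous fun x : ℝ => Complex.exp (c * x) * ((tri x : ℝ) : ℂ) := by
    have := cont_tri
    fun_prop
  rw [h0, ← intervalIntegral.integral_add_adjacent_intervals (b := 0)
    (hcont.intervalIntegrable _ _) (hcont.intervalIntegrable _ _)]
  have h1 : ∫ x in (0 : ℝ)..1, Complex.exp (c * x) * ((tri x : ℝ) : ℂ) =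
      Complex.exp c / c ^ 2 - 1 / c - 1 / c ^ 2 := by
    have h2 : ∀ x ∈ Set.uIcc (0 : ℝ) 1, Complex.exp (c * x) * ((tri x : ℝ) : ℂ) =
        Complex.exp (c * x) * (1 - x) := by
      intro x hx
      rw [Set.uIcc_of_le zero_le_one, Set.mem_Icc] at hx
      have : tri x = 1 - x := by
        unfold tri
        rw [abs_of_nonneg hx.1]
        exact max_eq_right (by linarith [hx.2])
      rw [this]
      push_cast
      ring
    rw [intervalIntegral.integral_congr h2]
    have hd : ∀ x ∈ Set.uIcc (0 : ℝ) 1, HasDerivAt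
        (fun y : ℝ => Complex.exp (c * y) * (1 - y) / c + Complex.exp (c * y) / c ^ 2)
        (Complex.exp (c * x) * (1 - x)) x := by
      intro x _
      have e1 : HasDerivAt (fun y : ℝ => Complex.exp (c * y)) (Complex.exp (c * x) * c) x := by
        have := ((Complex.ofRealCLM.hasDerivAt (x := x)).const_mul c).cexp
        simpa using this
      have e2 : HasDerivAt (fun y : ℝ => (1 : ℂ) - y) (-1) x := by
        have := (Complex.ofRealCLM.hasDerivAt (x := x)).const_sub (1 : ℂ)
        simpa using this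
      have e3 := ((e1.mul e2).div_const c).add (e1.div_const (c ^ 2))
      refine e3.congr_deriv ?_
      field_simp
      ring
    rw [intervalIntegral.integral_eq_sub_of_hasDerivAt hd
      (Continuous.intervalIntegrable (by fun_prop) _ _)]
    simp only [Complex.ofReal_one, Complex.ofReal_zero, mul_one, mul_zero, Complex.exp_zero]
    field_simp
    ring
  have h2 : ∫ x in (-1 : ℝ)..0, Complex.exp (c * x) * ((tri x : ℝ) : ℂ) =
      1 / c - 1 / c ^ 2 + Complex.exp (-c) / c ^ 2 := by
    have h2 : ∀ x ∈ Set.uIcc (-1 : ℝ) 0, Complex.exp (c * x) * ((tri x : ℝ) : ℂ) =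
        Complex.exp (c * x) * (1 + x) := by
      intro x hx
      rw [Set.uIcc_of_le (by norm_num), Set.mem_Icc] at hx
      have : tri x = 1 + x := by
        unfold tri
        rw [abs_of_nonpos hx.2]
        rw [sub_neg_eq_add]
        exact max_eq_right (by linarith [hx.1])
      rw [this]
      push_cast
      ring
    rw [intervalIntegral.integral_congr h2]
    have hd : ∀ x ∈ Set.uIcc (-1 : ℝ) 0, HasDerivAt
        (fun y : ℝ => Complex.exp (c * y) * (1 + y) / c - Complex.exp (c * y) / c ^ 2)
        (Complex.exp (c * x) * (1 + x)) x := by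
      intro x _
      have e1 : HasDerivAt (fun y : ℝ => Complex.exp (c * y)) (Complex.exp (c * x) * c) x := by
        have := ((Complex.ofRealCLM.hasDerivAt (x := x)).const_mul c).cexp
        simpa using this
      have e2 : HasDerivAt (fun y : ℝ => (1 : ℂ) + y) 1 x := by
        have := (Complex.ofRealCLM.hasDerivAt (x := x)).const_add (1 : ℂ)
        simpa using this
      have e3 := ((e1.mul e2).div_const c).sub (e1.div_const (c ^ 2))
      refine e3.congr_deriv ?_
      field_simp
      ring
    rw [intervalIntegral.integral_eq_sub_of_hasDerivAt hd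
      (Continuous.intervalIntegrable (by fun_prop) _ _)]
    simp only [Complex.ofReal_neg, Complex.ofReal_one, Complex.ofReal_zero, mul_one, mul_zero,
      Complex.exp_zero, mul_neg]
    field_simp
    ring
  rw [h1, h2]
  field_simp
  ring

theorem int_tri_zero : ∫ x : ℝ, ((tri x : ℝ) : ℂ) = 1 := by
  rw [integral_complex_ofReal]
  have h0 : ∫ x : ℝ, tri x = ∫ x in (-1 : ℝ)..1, tri x := by
    rw [intervalIntegral.integral_of_le (by norm_num)]
    symm
    apply setIntegral_eq_integral_of_forall_compl_eq_zero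
    intro x hx
    apply tri_zero
    rw [Set.mem_Ioc, not_and_or, not_lt, not_le] at hx
    rcases hx with hx | hx
    · rw [abs_of_nonpos (by linarith)]
      linarith
    · exact hx.le.trans (le_abs_self x)
  rw [h0, ← intervalIntegral.integral_add_adjacent_intervals (b := 0)
    (cont_tri.intervalIntegrable _ _) (cont_tri.intervalIntegrable _ _)]
  have h1 : ∫ x in (0 : ℝ)..1, tri x = ∫ x in (0 : ℝ)..1, (1 - x) := by
    refine intervalIntegral.integral_congr fun x hx => ?_
    rw [Set.uIcc_of_le zero_le_one, Set.mem_Icc] at hx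
    change max 0 (1 - |x|) = 1 - x
    rw [abs_of_nonneg hx.1]
    exact max_eq_right (by linarith [hx.2])
  have h2 : ∫ x in (-1 : ℝ)..0, tri x = ∫ x in (-1 : ℝ)..0, (1 + x) := by
    refine intervalIntegral.integral_congr fun x hx => ?_
    rw [Set.uIcc_of_le (by norm_num), Set.mem_Icc] at hx
    change max 0 (1 - |x|) = 1 + x
    rw [abs_of_nonpos hx.2, sub_neg_eq_add]
    exact max_eq_right (by linarith [hx.1])
  rw [h1, h2, intervalIntegral.integral_sub (by simp) (by simp),
    intervalIntegral.integral_add (by simp) (by simp)]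
  simp only [intervalIntegral.integral_const, integral_id]
  norm_num

theorem fourier_tri (ξ : ℝ) : 𝓕 (fun x : ℝ => ((tri x : ℝ) : ℂ)) ξ = (K ξ : ℂ) := by
  rw [Real.fourier_real_eq_integral_exp_smul]
  rcases eq_or_ne ξ 0 with rfl | h
  · simp only [mul_zero, Complex.ofReal_zero, zero_mul, Complex.exp_zero, one_smul]
    rw [int_tri_zero]
    simp [K]
  · have hp := Real.pi_pos
    set c : ℂ := ((-2 * Real.pi * ξ : ℝ) : ℂ) * Complex.I with hc
    have hc0 : c ≠ 0 := by
      refine mul_ne_zero ?_ Complex.I_ne_zero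
      exact_mod_cast mul_ne_zero (mul_ne_zero (by norm_num) hp.ne') h
    have h1 : ∀ v : ℝ, Complex.exp (((-2 * Real.pi * v * ξ : ℝ) : ℂ) * Complex.I) •
        ((tri v : ℝ) : ℂ) = Complex.exp (c * v) * ((tri v : ℝ) : ℂ) := by
      intro v
      rw [smul_eq_mul]
      congr 2
      rw [hc]
      push_cast
      ring
    rw [integral_congr_ae (Filter.Eventually.of_forall h1), int_tri hc0]
    have h2 : Complex.exp c + Complex.exp (-c) = 2 * ((Real.cos (2 * Real.pi * ξ) : ℝ) : ℂ) := by
      have h3 : Complex.cos ((2 * Real.pi * ξ : ℝ) : ℂ) =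
          (Complex.exp (((2 * Real.pi * ξ : ℝ) : ℂ) * Complex.I) +
            Complex.exp (-((2 * Real.pi * ξ : ℝ) : ℂ) * Complex.I)) / 2 := rfl
      rw [Complex.ofReal_cos, h3, hc]
      have h4 : ((-2 * Real.pi * ξ : ℝ) : ℂ) * Complex.I =
          -((2 * Real.pi * ξ : ℝ) : ℂ) * Complex.I := by
        push_cast
        ring
      have h5 : -(((-2 * Real.pi * ξ : ℝ) : ℂ) * Complex.I) =
          ((2 * Real.pi * ξ : ℝ) : ℂ) * Complex.I := by
        push_cast
        ring
      rw [h5, h4]
      ring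
    have h3 : c ^ 2 = ((-(4 * Real.pi ^ 2 * ξ ^ 2) : ℝ) : ℂ) := by
      rw [hc, mul_pow, Complex.I_sq]
      push_cast
      ring
    rw [h2, h3]
    unfold K
    rw [Real.sinc_of_ne_zero (mul_ne_zero hp.ne' h)]
    have h4 : Real.cos (2 * Real.pi * ξ) = 1 - 2 * Real.sin (Real.pi * ξ) ^ 2 := by
      rw [mul_assoc, Real.cos_two_mul, Real.cos_sq']
      ring
    rw [h4]
    have h5 : (2 * (1 - 2 * Real.sin (Real.pi * ξ) ^ 2) - 2) / (-(4 * Real.pi ^ 2 * ξ ^ 2)) =
        (Real.sin (Real.pi * ξ) / (Real.pi * ξ)) ^ 2 := by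
      field_simp
      ring
    rw [← h5]
    push_cast
    ring

theorem int_tri' : Integrable fun x : ℝ => ((tri x : ℝ) : ℂ) := by
  have h : Integrable tri := by
    refine (cont_tri.integrable_of_hasCompactSupport ?_)
    refine HasCompactSupport.intro (isCompact_Icc (a := (-1 : ℝ)) (b := 1)) fun x hx => ?_
    apply tri_zero
    rw [Set.mem_Icc, not_and_or, not_le, not_le] at hx
    rcases hx with hx | hx
    · rw [abs_of_neg (by linarith)]
      linarith
    · exact hx.le.trans (le_abs_self x)
  exact h.ofReal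

end Pool.Agent.D0H87.CC.Tri

namespace Pool.Agent.D0H87.CC

open Filter Topology MeasureTheory Finset FourierTransform
open Pool.Agent.D0H61.CC

open Tri in
theorem t_TRI : S_TRI := by
  refine ⟨K, cont_K, int_K, K_nonneg, sq_K_le, fun x => ?_⟩
  have hF : 𝓕 (fun x : ℝ => ((tri x : ℝ) : ℂ)) = fun ξ => (K ξ : ℂ) := funext fourier_tri
  have hc : Continuous fun x : ℝ => ((tri x : ℝ) : ℂ) :=
    Complex.continuous_ofReal.comp cont_tri
  have h1 := hc.fourierInv_fourier_eq int_tri' (by
    rw [hF]
    exact int_K.ofReal)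
  have h2 := congrFun h1 x
  rw [hF] at h2
  rw [← h2, Real.fourierInv_eq']
  refine integral_congr_ae (Filter.Eventually.of_forall fun v => ?_)
  change Complex.exp _ • (K v : ℂ) = _
  rw [smul_eq_mul, mul_comm]
  congr 1
  unfold ex
  congr 1
  push_cast
  simp
  ring

end Pool.Agent.D0H87.CC
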